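import Pool.Agent.J4H3.EQ.Stm

/-!
# Project EQ, piece (GPT): the good points (helper6)
-/

set_option autoImplicit false
set_option maxHeartbeats 4000000

namespace Pool.Agent.J4H6.EQ

open Complex Filter Topology Set MeasureTheory
open Pool.Agent.J4H4.NG Pool.Agent.J4H3.EQ

theorem gam_ne (v : ℝ) : gam (2 + I * v) ≠ 0 := by
  unfold gam
  have h0 : (2 + I * (v : ℂ)).re = 2 := by simp
  have h1 : (2 + I * (v : ℂ)) ≠ 0 := fun h => by
    rw [h] at h0
    norm_num at h0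
  have h2 : (2 + I * (v : ℂ)) - 1 ≠ 0 := fun h => by
    have : (2 + I * (v : ℂ)) = 1 := by linear_combination h
    rw [this] at h0
    norm_num at h0
  have h3 : Complex.Gammaℝ (2 + I * v) ≠ 0 := Complex.Gammaℝ_ne_zero_of_re_pos (by rw [h0]; norm_num)
  exact mul_ne_zero (div_ne_zero (mul_ne_zero h1 h2) two_ne_zero) h3

theorem lower {E G D : ℂ} {e C v T μ : ℝ} (he : 1 ≤ e) (hC : 0 < C) (hT : 0 < T) (hv : T ≤ v)
    (h : ‖E - G * (e : ℂ) * D‖ ≤ C / v * e * ‖G‖) (hD : T ^ (μ - 1) ≤ ‖D‖) (hμ : C + 1 ≤ T ^ μ) :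
    e * ‖G‖ * T⁻¹ ≤ ‖E‖ := by
  have h1 : ‖G * (e : ℂ) * D‖ = ‖G‖ * e * ‖D‖ := by
    rw [norm_mul, norm_mul, Complex.norm_real, Real.norm_of_nonneg (by linarith)]
  have h2 : ‖G * (e : ℂ) * D‖ ≤ ‖E‖ + ‖E - G * (e : ℂ) * D‖ := by
    have := norm_sub_norm_le (G * (e : ℂ) * D) E
    rw [norm_sub_rev] at this
    linarith
  have h3 : C / v ≤ C / T := div_le_div_of_nonneg_left hC.le hT hv
  have h4 : T ^ (μ - 1) = T ^ μ * T⁻¹ := by
    rw [Real.rpow_sub hT, Real.rpow_one, div_eq_mul_inv]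
  have hG : 0 ≤ ‖G‖ := norm_nonneg _
  have hTi : 0 < T⁻¹ := inv_pos.2 hT
  have h5 : ‖G‖ * e * (T ^ μ * T⁻¹) ≤ ‖G‖ * e * ‖D‖ := by
    rw [← h4]
    exact mul_le_mul_of_nonneg_left hD (mul_nonneg hG (by linarith))
  have h6 : C / v * e * ‖G‖ ≤ C / T * e * ‖G‖ :=
    mul_le_mul_of_nonneg_right (mul_le_mul_of_nonneg_right h3 (by linarith)) hG
  have h7 : ‖G‖ * e * ((C + 1) * T⁻¹) ≤ ‖G‖ * e * (T ^ μ * T⁻¹) :=
    mul_le_mul_of_nonneg_left (mul_le_mul_of_nonneg_right hμ hTi.le) (mul_nonneg hG (by linarith))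
  have h8 : C / T * e * ‖G‖ = ‖G‖ * e * (C * T⁻¹) := by
    rw [div_eq_mul_inv]
    ring
  calc e * ‖G‖ * T⁻¹ = ‖G‖ * e * ((C + 1) * T⁻¹) - ‖G‖ * e * (C * T⁻¹) := by ring
    _ ≤ ‖E‖ := by linarith

theorem t_GPT : J_GPT := by
  intro hG hR hREP a μ κ δ ha hμ hμ2 hκ hδ
  obtain ⟨P, T1, hP, hT1, hgood⟩ := hG a μ κ δ ha hμ hμ2 hκ hδ
  obtain ⟨C, V1, hC, hV1, hrep⟩ := hR a ha
  obtain ⟨-, -, hev, hcj⟩ := hREP (4 * a) (by positivity)
  have e4 : 4 * a / 4 = a := by ring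
  rw [e4] at hev hcj
  set K : ℝ := a * Real.log 4 + a * Real.log (2 * Real.pi) + 2 * a * Real.log P with hK
  have hlog4 : 0 ≤ Real.log 4 := Real.log_nonneg (by norm_num)
  have hlogpi : 0 ≤ Real.log (2 * Real.pi) := Real.log_nonneg (by have := Real.pi_gt_three; linarith)
  have hlogP : 0 ≤ Real.log (P : ℝ) := Real.log_nonneg (by exact_mod_cast hP)
  have hK0 : 0 ≤ K := by positivity
  have key : ∀ᶠ T : ℝ in atTop, max T1 V1 ≤ T ∧ C + 1 ≤ T ^ μ ∧ κ * Real.log T ≤ 1 * T ∧ 3 / 2 + K ≤ κ * Real.log T ∧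
      (3 * K + 9 / 4) / (4 * a) ≤ Real.log T ∧ 1 ≤ Real.log T := by
    have e1 := eventually_ge_atTop (max T1 V1)
    have e2 := (tendsto_rpow_atTop hμ).eventually_ge_atTop (C + 1)
    have e3 : ∀ᶠ T : ℝ in atTop, κ * Real.log T ≤ 1 * T := by
      have h := (Real.isLittleO_log_id_atTop).bound (show (0 : ℝ) < 1 / κ by positivity)
      filter_upwards [h, eventually_ge_atTop 1] with T hT hT1
      rw [Real.norm_of_nonneg (Real.log_nonneg hT1), id, Real.norm_of_nonneg (by linarith)] at hT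
      calc κ * Real.log T ≤ κ * (1 / κ * T) := mul_le_mul_of_nonneg_left hT hκ.le
        _ = 1 * T := by field_simp
    have e4 := (Real.tendsto_log_atTop.const_mul_atTop hκ).eventually_ge_atTop (3 / 2 + K)
    have e5 := Real.tendsto_log_atTop.eventually_ge_atTop ((3 * K + 9 / 4) / (4 * a))
    have e6 := Real.tendsto_log_atTop.eventually_ge_atTop 1
    filter_upwards [e1, e2, e3, e4, e5, e6] with T h1 h2 h3 h4 h5 h6
    exact ⟨h1, h2, h3, h4, h5, h6⟩
  obtain ⟨T₀, hT₀⟩ := eventually_atTop.1 key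
  refine ⟨3, max T₀ 2, by norm_num, le_max_right _ _, fun T hT x hx1 hx2 => ?_⟩
  obtain ⟨c0, c1, c2, c3, c4, c5⟩ := hT₀ T ((le_max_left _ _).trans hT)
  have hT2 : 2 ≤ T := (le_max_right _ _).trans hT
  have hTT1 : T1 ≤ T := (le_max_left _ _).trans c0
  have hTV1 : V1 ≤ T := (le_max_right _ _).trans c0
  have hT0 : 0 < T := by linarith
  set L : ℝ := Real.log T with hL
  set lam : ℝ := L / 2 - |x| / (2 * a) with hlam
  have hlam1 : μ * L ≤ lam := by
    have : |x| / (2 * a) ≤ (1 - 2 * μ) * L / 2 := by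
      rw [div_le_iff₀ (by positivity)]
      calc |x| ≤ a * (1 - 2 * μ) * L := hx2
        _ = _ := by ring
    rw [hlam]
    linarith
  have hlam2 : lam ≤ (1 / 2 - μ) * L := by
    have : μ * L ≤ |x| / (2 * a) := by
      rw [le_div_iff₀ (by positivity)]
      calc μ * L * (2 * a) = 2 * a * μ * L := by ring
        _ ≤ _ := hx1
    rw [hlam]
    linarith
  refine (measure_mono ?_).trans (hgood T hTT1 lam hlam1 hlam2)
  rintro v ⟨hv1, hv2, hv⟩
  refine ⟨hv1, hv2, fun b hb1 hb2 u hu1 hu2 => ?_⟩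
  by_contra hcon
  have hDD : T ^ (μ - 1) ≤ ‖DD a (lam - Real.log b) (v + u)‖ := not_lt.1 hcon
  have hu2' : u ≤ κ * L := hu2
  have hvu : T ≤ v + u := by linarith
  have hvu4 : v + u ≤ 4 * T := by linarith
  have hvu0 : 0 < v + u := by linarith
  set η : ℝ := 2 * a * (Real.log ((v + u) / (2 * Real.pi)) / 2 - (lam - Real.log b)) with hη
  have hlb : 0 ≤ Real.log (b : ℝ) := Real.log_nonneg (by exact_mod_cast hb1)
  have hlb2 : Real.log (b : ℝ) ≤ Real.log P := Real.log_le_log (by exact_mod_cast hb1) (by exact_mod_cast hb2)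
  have hlogd : Real.log ((v + u) / (2 * Real.pi)) = Real.log (v + u) - Real.log (2 * Real.pi) :=
    Real.log_div (by linarith) (by positivity)
  have hη2 : η = |x| + a * (Real.log (v + u) - L) - a * Real.log (2 * Real.pi) + 2 * a * Real.log b := by
    rw [hη, hlam, hlogd]
    field_simp
    ring
  have hl1 : L ≤ Real.log (v + u) := Real.log_le_log hT0 hvu
  have hl2 : Real.log (v + u) ≤ L + Real.log 4 := by
    rw [hL, ← Real.log_mul (by linarith) (by norm_num)]
    exact Real.log_le_log hvu0 (by linarith)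
  have m1 : 0 ≤ a * (Real.log (v + u) - L) := mul_nonneg ha.le (by linarith)
  have m2 : a * (Real.log (v + u) - L) ≤ a * Real.log 4 := mul_le_mul_of_nonneg_left (by linarith) ha.le
  have m3 : 0 ≤ 2 * a * Real.log b := by positivity
  have m4 : 2 * a * Real.log b ≤ 2 * a * Real.log P := mul_le_mul_of_nonneg_left hlb2 (by positivity)
  have m5 : 0 ≤ a * Real.log (2 * Real.pi) := by positivity
  have m6 : 0 ≤ a * Real.log 4 := by positivity
  have m7 : 0 ≤ 2 * a * Real.log P := by positivity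
  have hη3 : |η - abs x| ≤ K := by
    rw [abs_le, hη2, hK]
    constructor <;> linarith
  have hxL : |x| ≤ a * L := by
    have : a * (1 - 2 * μ) * L ≤ a * L := by
      have : 0 ≤ a * (2 * μ) * L := by positivity
      nlinarith
    linarith
  have hrepr := hrep (v + u) (hTV1.trans hvu) η
  have earg : Real.log ((v + u) / (2 * Real.pi)) / 2 - η / (2 * a) = lam - Real.log b := by
    rw [hη]
    field_simp
    ring
  rw [earg] at hrepr
  have hlow := lower (Real.one_le_exp (by positivity)) hC hT0 hvu hrepr hDD c1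
  set g₀ : ℂ := ((3 / 2 + η : ℝ) : ℂ) + I * ((v + u : ℝ) : ℂ) with hg₀
  have hg1 : g₀.re = 3 / 2 + η := by simp [hg₀]
  have hg2 : g₀.im = v + u := by simp [hg₀]
  have hgam : 0 < ‖gam (2 + I * ((v + u : ℝ) : ℂ))‖ := norm_pos_iff.2 (gam_ne _)
  have hpos : 0 < Real.exp (η ^ 2 / (4 * a)) * ‖gam (2 + I * ((v + u : ℝ) : ℂ))‖ * T⁻¹ := by positivity
  have hE0 : 0 < ‖EE a g₀‖ := lt_of_lt_of_le hpos hlow
  have hlogE : η ^ 2 / (4 * a) + Real.log ‖gam (2 + I * ((v + u : ℝ) : ℂ))‖ - L ≤ Real.log ‖EE a g₀‖ := by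
    have h1 := Real.log_le_log hpos hlow
    rw [Real.log_mul (by positivity) (by positivity), Real.log_mul (by positivity) (by positivity), Real.log_exp,
      Real.log_inv] at h1
    linarith
  have hpotc : (3 / 2 + η) ^ 2 / (4 * a) + Real.log ‖gam (2 + I * ((v + u : ℝ) : ℂ))‖ - 3 * L ≤ Real.log ‖EE a g₀‖ := by
    have h1 : (3 / 2 + η) ^ 2 / (4 * a) = η ^ 2 / (4 * a) + (3 * η + 9 / 4) / (4 * a) := by
      field_simp
      ring
    have h2 : (3 * η + 9 / 4) / (4 * a) ≤ (3 * (a * L + K) + 9 / 4) / (4 * a) := by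
      refine div_le_div_of_nonneg_right ?_ (by positivity)
      have := (abs_le.1 hη3).2
      linarith
    have h3 : (3 * (a * L + K) + 9 / 4) / (4 * a) = 3 / 4 * L + (3 * K + 9 / 4) / (4 * a) := by
      field_simp
      ring
    linarith
  rcases le_total 0 x with hx | hx
  · rw [abs_of_nonneg hx] at hη3
    have := hv g₀ (by
      rw [hg1, abs_le]
      obtain ⟨q1, q2⟩ := abs_le.1 hη3
      constructor <;> linarith) (by
      rw [hg2, abs_le]
      constructor <;> linarith) (norm_pos_iff.1 hE0)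
    unfold pot at this
    rw [hg1, hg2] at this
    linarith
  · rw [abs_of_nonpos hx] at hη3
    have hEc : EE a (-(starRingEnd ℂ) g₀) = (starRingEnd ℂ) (EE a g₀) := by rw [hev, hcj]
    have hn : ‖EE a (-(starRingEnd ℂ) g₀)‖ = ‖EE a g₀‖ := by rw [hEc, Complex.norm_conj]
    have hr : (-(starRingEnd ℂ) g₀).re = -(3 / 2 + η) := by rw [neg_re, conj_re, hg1]
    have hi : (-(starRingEnd ℂ) g₀).im = v + u := by rw [neg_im, conj_im, hg2, neg_neg]
    have := hv (-(starRingEnd ℂ) g₀) (by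
      rw [hr, abs_le]
      obtain ⟨q1, q2⟩ := abs_le.1 hη3
      constructor <;> linarith) (by
      rw [hi, abs_le]
      constructor <;> linarith) (norm_pos_iff.1 (by rw [hn]; exact hE0))
    unfold pot at this
    rw [hr, hi, hn, neg_sq] at this
    linarith

end Pool.Agent.J4H6.EQ
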