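import Pool.Agent.J4H3.EQ.Stm
import Pool.Agent.J4H6.NG.E

/-!
# Project EQ, piece (LAW): the law of the zeros from (LOWH) and (TAU) (helper6)
-/

set_option autoImplicit false

namespace Pool.Agent.J4H6.EQ

open Complex Filter Topology Set MeasureTheory
open Pool.Agent.J4H3.EQ
open Pool.Agent.J4H4.NG (S_GRO)
open Pool.Agent.J4H2.DN (Hd)

theorem tend (F : ℝ → ℝ) (l : ℝ) (h1 : ∀ ε : ℝ, 0 < ε → ∀ᶠ R : ℝ in atTop, (l - ε) * (R * Real.log R) ≤ F R)
    (h2 : ∀ ε : ℝ, 0 < ε → ∀ᶠ R : ℝ in atTop, F R ≤ (l + ε) * (R * Real.log R)) :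
    Tendsto (fun R => F R / (R * Real.log R)) atTop (𝓝 l) := by
  rw [Metric.tendsto_nhds]
  intro ε hε
  filter_upwards [h1 (ε / 2) (by positivity), h2 (ε / 2) (by positivity), eventually_ge_atTop 2] with R a1 a2 a3
  have hp : 0 < R * Real.log R := mul_pos (by linarith) (Real.log_pos (by linarith))
  rw [Real.dist_eq, abs_lt]
  have b1 : l - ε / 2 ≤ F R / (R * Real.log R) := (le_div_iff₀ hp).2 a1
  have b2 : F R / (R * Real.log R) ≤ l + ε / 2 := (div_le_iff₀ hp).2 a2
  constructor <;> linarith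

theorem t_LAW : J_LAW := by
  intro hLOW hTAU hGRO b hb
  obtain ⟨R₀, -, -, -, hH0, hdiff⟩ := hGRO b hb
  have hfin : ∀ R : ℝ, {z : ℂ | Hd (-b) z = 0 ∧ ‖z‖ ≤ R}.Finite := NG.fin_zeros hdiff ⟨0, hH0⟩
  -- lower bounds, without the order of the ends
  have low : ∀ α β ε : ℝ, -(b / 2) ≤ α → β ≤ b / 2 → 0 < ε → ∀ᶠ R : ℝ in atTop, ∃ S : Finset ℂ,
      (∀ z ∈ S, Hd (-b) z = 0 ∧ ‖z‖ ≤ R ∧ α * Real.log R ≤ z.im ∧ z.im ≤ β * Real.log R) ∧
      ((β - α) / (2 * Real.pi * b) - ε) * (R * Real.log R) ≤ ∑ z ∈ S, (analyticOrderNatAt (Hd (-b)) z : ℝ) := by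
    intro α β ε h1 h2 hε
    rcases le_total α β with h | h
    · obtain ⟨R1, -, hR1⟩ := hLOW b α β ε hb h1 h h2 hε
      filter_upwards [eventually_ge_atTop R1] with R hR
      obtain ⟨S, s1, s2⟩ := hR1 R hR
      exact ⟨S, s1, by rw [← mul_assoc]; exact s2⟩
    · filter_upwards [eventually_ge_atTop 1] with R hR
      refine ⟨∅, by simp, ?_⟩
      rw [Finset.sum_empty]
      refine mul_nonpos_of_nonpos_of_nonneg ?_ (mul_nonneg (by linarith) (Real.log_nonneg hR))
      have : (β - α) / (2 * Real.pi * b) ≤ 0 := div_nonpos_of_nonpos_of_nonneg (by linarith) (by positivity)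
      linarith
  have htot : ∀ R : ℝ, tot b R = ∑ z ∈ (hfin R).toFinset, (analyticOrderNatAt (Hd (-b)) z : ℝ) := fun R =>
    finsum_mem_eq_finite_toFinset_sum _ (hfin R)
  have up : ∀ ε : ℝ, 0 < ε → ∀ᶠ R : ℝ in atTop, tot b R ≤ (1 / (2 * Real.pi) + ε) * (R * Real.log R) := by
    intro ε hε
    obtain ⟨R1, -, hR1⟩ := hTAU b ε hb hε
    filter_upwards [eventually_ge_atTop R1] with R hR
    rw [htot, ← mul_assoc]
    exact hR1 R hR _ fun z hz => by rwa [Set.Finite.mem_toFinset] at hz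
  refine ⟨hfin, ?_, fun α β h1 h2 h3 => ?_⟩
  · refine tend _ _ (fun ε hε => ?_) up
    filter_upwards [low (-(b / 2)) (b / 2) ε le_rfl le_rfl hε] with R hR
    obtain ⟨S, s1, s2⟩ := hR
    have e : (b / 2 - -(b / 2)) / (2 * Real.pi * b) = 1 / (2 * Real.pi) := by
      field_simp
      ring
    rw [e] at s2
    rw [htot]
    refine s2.trans (Finset.sum_le_sum_of_subset_of_nonneg ?_ fun _ _ _ => by positivity)
    intro z hz
    rw [Set.Finite.mem_toFinset]
    exact ⟨(s1 z hz).1, (s1 z hz).2.1⟩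
  · have hfin2 : ∀ R : ℝ, {z : ℂ | Hd (-b) z = 0 ∧ ‖z‖ ≤ R ∧ α * Real.log R ≤ z.im ∧ z.im ≤ β * Real.log R}.Finite :=
      fun R => (hfin R).subset fun z hz => ⟨hz.1, hz.2.1⟩
    have hcnt : ∀ R : ℝ, cnt b α β R = ∑ z ∈ (hfin2 R).toFinset, (analyticOrderNatAt (Hd (-b)) z : ℝ) := fun R =>
      finsum_mem_eq_finite_toFinset_sum _ (hfin2 R)
    refine tend _ _ (fun ε hε => ?_) (fun ε hε => ?_)
    · filter_upwards [low α β ε h1 h3 hε] with R hR
      obtain ⟨S, s1, s2⟩ := hR
      have e : (β - α) / (2 * Real.pi * b) = (β - α) / b * (1 / (2 * Real.pi)) := by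
        field_simp
      rw [e] at s2
      rw [hcnt]
      refine s2.trans (Finset.sum_le_sum_of_subset_of_nonneg ?_ fun _ _ _ => by positivity)
      intro z hz
      rw [Set.Finite.mem_toFinset]
      exact s1 z hz
    · obtain ⟨η, hη, hηε⟩ : ∃ η : ℝ, 0 < η ∧ 2 * η / (2 * Real.pi * b) ≤ ε / 4 := by
        refine ⟨Real.pi * b * (ε / 4), by positivity, le_of_eq ?_⟩
        field_simp
      filter_upwards [up (ε / 4) (by positivity), low (-(b / 2)) (α - η) (ε / 4) le_rfl (by linarith) (by positivity),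
        low (β + η) (b / 2) (ε / 4) (by linarith) le_rfl (by positivity), eventually_ge_atTop 2] with R u1 u2 u3 u4
      obtain ⟨S1, s1, s2⟩ := u2
      obtain ⟨S2, s3, s4⟩ := u3
      have hlog : 0 < Real.log R := Real.log_pos (by linarith)
      have hX : 0 < R * Real.log R := mul_pos (by linarith) hlog
      rw [hcnt]
      set Z := (hfin2 R).toFinset with hZ
      have hZm : ∀ z ∈ Z, Hd (-b) z = 0 ∧ ‖z‖ ≤ R ∧ α * Real.log R ≤ z.im ∧ z.im ≤ β * Real.log R := fun z hz => by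
        rwa [hZ, Set.Finite.mem_toFinset] at hz
      have d1 : Disjoint Z S1 := by
        rw [Finset.disjoint_left]
        intro z hz hz1
        have q1 := (hZm z hz).2.2.1
        have q2 := (s1 z hz1).2.2.2
        nlinarith
      have d2 : Disjoint (Z ∪ S1) S2 := by
        rw [Finset.disjoint_left]
        intro z hz hz2
        have q2 := (s3 z hz2).2.2.1
        rcases Finset.mem_union.1 hz with hz | hz
        · have q1 := (hZm z hz).2.2.2
          nlinarith
        · have q1 := (s1 z hz).2.2.2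
          have : (α - η) * Real.log R ≤ β * Real.log R := mul_le_mul_of_nonneg_right (by linarith) hlog.le
          nlinarith
      have hsum : ∑ z ∈ Z, (analyticOrderNatAt (Hd (-b)) z : ℝ) + ∑ z ∈ S1, (analyticOrderNatAt (Hd (-b)) z : ℝ) +
          ∑ z ∈ S2, (analyticOrderNatAt (Hd (-b)) z : ℝ) ≤ tot b R := by
        rw [← Finset.sum_union d1, ← Finset.sum_union d2, htot]
        refine Finset.sum_le_sum_of_subset_of_nonneg ?_ fun _ _ _ => by positivity
        intro z hz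
        rw [Set.Finite.mem_toFinset]
        rcases Finset.mem_union.1 hz with hz | hz
        · rcases Finset.mem_union.1 hz with hz | hz
          · exact ⟨(hZm z hz).1, (hZm z hz).2.1⟩
          · exact ⟨(s1 z hz).1, (s1 z hz).2.1⟩
        · exact ⟨(s3 z hz).1, (s3 z hz).2.1⟩
      have e : 1 / (2 * Real.pi) + ε / 4 - ((α - η - -(b / 2)) / (2 * Real.pi * b) - ε / 4) -
          ((b / 2 - (β + η)) / (2 * Real.pi * b) - ε / 4) =
          (β - α) / b * (1 / (2 * Real.pi)) + 2 * η / (2 * Real.pi * b) + 3 * (ε / 4) := by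
        field_simp
        ring
      have hfin : ∑ z ∈ Z, (analyticOrderNatAt (Hd (-b)) z : ℝ) ≤
          ((β - α) / b * (1 / (2 * Real.pi)) + 2 * η / (2 * Real.pi * b) + 3 * (ε / 4)) * (R * Real.log R) := by
        rw [← e]
        calc _ ≤ tot b R - ∑ z ∈ S1, (analyticOrderNatAt (Hd (-b)) z : ℝ) - ∑ z ∈ S2, (analyticOrderNatAt (Hd (-b)) z : ℝ) := by
              linarith
          _ ≤ _ := by
              have := sub_le_sub (sub_le_sub u1 s2) s4
              refine this.trans (le_of_eq ?_)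
              ring
      refine hfin.trans (mul_le_mul_of_nonneg_right ?_ hX.le)
      linarith

end Pool.Agent.J4H6.EQ
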